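import Pool.Agent.W836.SH.Stm

/-!
Project SH (helper836), part SH-STAR.
-/

set_option autoImplicit false

open scoped Classical
open Pool.Agent.W836.SH

namespace Pool.Agent.W287.SH

theorem star_aux (ι : Type) (V : Finset (ι → ℝ)) (I : Finset ι) (s : ι) (hTS : TS V)
    (hH : HalfOn {s} V) (_hs : s ∉ I) : STAR (XX s I V) := by
  intro k r x hx
  by_cases hr : ∀ i, r i ∈ I
  · -- the lifts
    have h1 : ∀ j : Fin (k + 1), ∀ e : ℝ, hf e → ∃ u ∈ V, u s = e ∧ ∀ i ∈ I, u i = x j i := by
      intro j e he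
      have hj := hx j
      unfold XX at hj
      rw [Finset.mem_image] at hj
      obtain ⟨v, hv, hvx⟩ := hj
      rw [Finset.mem_filter] at hv
      obtain ⟨hvV, w, hwV, hwI, hws⟩ := hv
      have a1 : hf (v s) := hH v hvV s (Finset.mem_singleton_self s)
      have a2 : hf (w s) := hH w hwV s (Finset.mem_singleton_self s)
      have hvI : ∀ i ∈ I, v i = x j i := by
        intro i hi
        rw [← hvx]
        unfold res
        rw [if_pos hi]
      by_cases hve : v s = e
      · exact ⟨v, hvV, hve, hvI⟩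
      · refine ⟨w, hwV, ?_, fun i hi => by rw [hwI i hi]; exact hvI i hi⟩
        unfold hf at a1 a2 he
        rcases a1 with a1 | a1 <;> rcases a2 with a2 | a2 <;> rcases he with he | he <;>
          first
          | (exfalso; exact hws (a2.trans a1.symm))
          | (exfalso; exact hve (a1.trans he.symm))
          | exact a2.trans he.symm
    set M : Fin (k + 1) → ℝ := fun j =>
      (Matrix.of fun i l => x (j.succAbove l) (r i) : Matrix (Fin k) (Fin k) ℝ).det with hM
    have h2 : ∀ j : Fin (k + 1), ∃ u ∈ V, (-1 : ℝ) ^ (j : ℕ) * u s * M j = 1 / 2 * |M j| ∧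
        ∀ i ∈ I, u i = x j i := by
      intro j
      have hsg : (-1 : ℝ) ^ (j : ℕ) = 1 ∨ (-1 : ℝ) ^ (j : ℕ) = -1 := neg_one_pow_eq_or ℝ (j : ℕ)
      rcases le_total 0 (M j) with h0 | h0
      · rcases hsg with hsg | hsg
        · obtain ⟨u, hu, hus, huI⟩ := h1 j (1 / 2) (Or.inl rfl)
          exact ⟨u, hu, by rw [hsg, hus, abs_of_nonneg h0]; ring, huI⟩
        · obtain ⟨u, hu, hus, huI⟩ := h1 j (-(1 / 2)) (Or.inr rfl)
          exact ⟨u, hu, by rw [hsg, hus, abs_of_nonneg h0]; ring, huI⟩
      · rcases hsg with hsg | hsg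
        · obtain ⟨u, hu, hus, huI⟩ := h1 j (-(1 / 2)) (Or.inr rfl)
          exact ⟨u, hu, by rw [hsg, hus, abs_of_nonpos h0]; ring, huI⟩
        · obtain ⟨u, hu, hus, huI⟩ := h1 j (1 / 2) (Or.inl rfl)
          exact ⟨u, hu, by rw [hsg, hus, abs_of_nonpos h0]; ring, huI⟩
    choose u huV hus huI using h2
    have h3 := hTS (k + 1) (Fin.cons s r : Fin (k + 1) → ι) u huV
    rw [Matrix.det_succ_row_zero] at h3
    have h4 : ∀ j : Fin (k + 1),
        (-1 : ℝ) ^ (j : ℕ) *
          (Matrix.of fun (i : Fin (k + 1)) (j : Fin (k + 1)) =>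
            u j ((Fin.cons s r : Fin (k + 1) → ι) i)) 0 j *
          ((Matrix.of fun (i : Fin (k + 1)) (j : Fin (k + 1)) =>
            u j ((Fin.cons s r : Fin (k + 1) → ι) i)).submatrix Fin.succ j.succAbove).det =
        1 / 2 * |M j| := by
      intro j
      rw [← hus j]
      have e1 : ((Matrix.of fun (i : Fin (k + 1)) (j : Fin (k + 1)) =>
            u j ((Fin.cons s r : Fin (k + 1) → ι) i)).submatrix Fin.succ j.succAbove) =
          (Matrix.of fun i l => x (j.succAbove l) (r i) : Matrix (Fin k) (Fin k) ℝ) := by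
        ext i l
        simp only [Matrix.submatrix_apply, Matrix.of_apply, Fin.cons_succ]
        exact huI _ _ (hr i)
      rw [e1]
      simp only [Matrix.of_apply, Fin.cons_zero, hM]
    rw [Finset.sum_congr rfl (fun j _ => h4 j), ← Finset.mul_sum] at h3
    have h5 : 0 ≤ ∑ j, |M j| := Finset.sum_nonneg fun j _ => abs_nonneg _
    rw [abs_of_nonneg (by positivity)] at h3
    show ∑ j, |M j| ≤ 2
    linarith
  · push Not at hr
    obtain ⟨i, hi⟩ := hr
    have h1 : ∀ j : Fin (k + 1),
        (Matrix.of fun i l => x (j.succAbove l) (r i) : Matrix (Fin k) (Fin k) ℝ).det = 0 := by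
      intro j
      refine Matrix.det_eq_zero_of_row_eq_zero i fun l => ?_
      have hj := hx (j.succAbove l)
      unfold XX at hj
      rw [Finset.mem_image] at hj
      obtain ⟨v, _, hvx⟩ := hj
      simp only [Matrix.of_apply]
      rw [← hvx]
      unfold res
      rw [if_neg hi]
    rw [Finset.sum_congr rfl (fun j _ => by rw [h1 j, abs_zero])]
    simp

theorem star_pr (ι : Type) (X : Finset (ι → ℝ)) (P : Finset ι) (hX : STAR X) :
    STAR (pr P X) := by
  intro k r y hy
  have h0 : ∀ j, ∃ x ∈ X, res P x = y j := by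
    intro j
    have := hy j
    unfold pr at this
    rwa [Finset.mem_image] at this
  choose x hxX hxy using h0
  by_cases hr : ∀ i, r i ∈ P
  · have h1 : ∀ j : Fin (k + 1),
        (Matrix.of fun i l => y (j.succAbove l) (r i) : Matrix (Fin k) (Fin k) ℝ) =
        (Matrix.of fun i l => x (j.succAbove l) (r i) : Matrix (Fin k) (Fin k) ℝ) := by
      intro j
      ext i l
      simp only [Matrix.of_apply]
      rw [← hxy]
      unfold res
      rw [if_pos (hr i)]
    rw [Finset.sum_congr rfl (fun j _ => by rw [h1 j])]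
    exact hX k r x hxX
  · push Not at hr
    obtain ⟨i, hi⟩ := hr
    have h1 : ∀ j : Fin (k + 1),
        (Matrix.of fun i l => y (j.succAbove l) (r i) : Matrix (Fin k) (Fin k) ℝ).det = 0 := by
      intro j
      refine Matrix.det_eq_zero_of_row_eq_zero i fun l => ?_
      simp only [Matrix.of_apply]
      rw [← hxy]
      unfold res
      rw [if_neg hi]
    rw [Finset.sum_congr rfl (fun j _ => by rw [h1 j, abs_zero])]
    simp

theorem main : S_STARXX := by
  intro ι V I s hTS hH hs
  have h := star_aux ι V I s hTS hH hs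
  exact ⟨h, fun P => star_pr ι _ P h⟩

end Pool.Agent.W287.SH
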